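import Pool.Agent.R128.F4.Final

set_option autoImplicit false

/-!
# The vertex-edge Ramsey number `f_4(r,s)` for `r ≥ 5`, `s > r² - 5r + 8` (MP_0fdbcb_co)

The elements of a graph `G` on `V` are the terms of `V ⊕ G.edgeSet`.
`R128.F4.Joint G` : adjacent vertices, edges sharing an endpoint, a vertex and an edge containing it.
`R128.F4.HasJoint G r` : there is a set of `r` elements any two (distinct) of which are joint.
`R128.F4.HasDisj G s` : there is a set of `s` elements no two (distinct) of which are joint.
`R128.F4.F4Set r s` : the positive integers `p` such that every connected graph on `Fin p` has `r`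
mutually joint elements or `s` mutually disjoint elements; `f_4(r,s)` is its least element.

Proof and statements: helper128 (`Pool/Agent/R128/F4/notes.md`); pieces formalized by helper85,
helper99, helper104, helper198, helper230, helper430, helper568, helper724, helper733, helper784,
helper806, helper961.
-/

namespace Pool.Agent.Results.MP_0fdbcb_co.VertexEdgeRamsey

open R128.F4

/-- For all `r ≥ 5` and `s > r² - 5r + 8`,
`f_4(r,s) = 2s - 1 - ⌈(s - r + 2) / (r² - 6r + 10)⌉`
(note `r² - 6r + 10 = (r-3)² + 1`). -/
theorem result (r s : ℕ) (hr : 5 ≤ r) (hs : r ^ 2 + 8 < s + 5 * r) :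
    IsLeast (F4Set r s) (2 * s - 1 - (s - r + 2 + (r - 3) ^ 2) / ((r - 3) ^ 2 + 1)) :=
  isLeast_F4Set r s hr hs

end Pool.Agent.Results.MP_0fdbcb_co.VertexEdgeRamsey
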